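import Pool.Agent.Helper45.AD.MainA

/-!
# MP_150b3d_gt: for every body, almost every set of at least four directions is good

Problem MP_150b3d_gt (density of boundary sets invariant under chord maps).

Outline of the proof.  The boundary is parametrised by the tangent angle and the chord map in the
direction of angle `t` is lifted to the line: `F_t x`, strictly decreasing in `x`, strictly
increasing in `t`.  Fix the angles other than `t`.  For an arc `B` let `N_t` be the largest
invariant set missing `B`, and `a_t` an end point of its gap around `B`.
1. (Our GapLoops.) Every end point of a gap of `N_t` is fixed by a word whose letters are
   alternately taken from two pairs, one of which contains the moving direction, and which begins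
   with it.  By monotonicity such a loop forces the end point to move with speed bounded below,
   with one sign, when `t` varies (sign lemma).
2. The images of `a_t` under words in the fixed directions are different for different `t`.  If
   there are infinitely many of them for a set of `t` of positive measure, then infinitely many
   sets, of measure bounded below in total by infinity, would fit disjointly into an interval.
3. So for almost every tuple of angles all orbits of gap end points under any three of the four
   chord maps are finite.  On finite orbits chord maps are reflections, products of two of them
   commute, so the orbit under all four is finite, and by Gardner and McMullen the directions are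
   those of an affinely regular polygon: a null set.
-/

set_option autoImplicit false

namespace Pool.Agent.Results.MP_150b3d_gt.AlmostAllDirections

open ChordMaps MeasureTheory

/-- The unit vector with angle `t`. -/
noncomputable def unit (t : ℝ) : Plane := !₂[Real.cos t, Real.sin t]

/-- The set `V` of boundary points of `K` is invariant under the chord map in the direction `v`:
every boundary point on the line through a point of `V` parallel to `v` belongs to `V`. -/
def InvariantUnder (K V : Set Plane) (v : Plane) : Prop :=
  ∀ x ∈ V, ∀ τ : ℝ, x + τ • v ∈ frontier K → x + τ • v ∈ V

/-- Let `K` be ANY smooth strictly convex planar body and `n ≥ 4`.  There are countably many closed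
Lebesgue null sets in `ℝ^n` such that for all `(t_1, ..., t_n)` outside them every nonempty set `V`
of boundary points of `K` which is invariant under the chord maps in the `n` directions with angles
`t_1, ..., t_n` is dense in the boundary of `K`. -/
theorem result (K : Set Plane) (hK : IsCompact K) (hs : StrictConvex ℝ K)
    (hi : (interior K).Nonempty) (hsm : Smooth K) (n : ℕ) (hn : 4 ≤ n) :
    ∃ F : ℕ → Set (Fin n → ℝ), (∀ k, IsClosed (F k) ∧ volume (F k) = 0) ∧
      ∀ t : Fin n → ℝ, (∀ k, t ∉ F k) → ∀ V ⊆ frontier K, V.Nonempty →
        (∀ i, InvariantUnder K V (unit (t i))) → closure V = frontier K := by
  obtain ⟨m, rfl⟩ := Nat.exists_eq_add_of_le hn
  exact AD.mainA (K := K) ⟨hK, hs, hi, hsm⟩ m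

end Pool.Agent.Results.MP_150b3d_gt.AlmostAllDirections
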