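import Pool.Agent.Helper95.TL.T5

set_option autoImplicit false

/-! # MP_150b3d_gt: every gap of a non-dense invariant set is fixed by short alternating words -/

namespace Pool.Agent.Results.MP_150b3d_gt.GapLoops

open ChordMaps

/-- Let `K` be a smooth strictly convex planar body and `u 0, u 1, u 2, u 3` four pairwise
non-parallel directions in cyclic order (`Cyc u`), with chord maps `f_i = chord K (u i)`.  An
alternating word has its letters alternately in `{f_0, f_2}` and `{f_1, f_3}`;
`walk K u c (d :: L) x` is the image of `x` under the alternating word whose first applied letter is
`f_i`, `i = ltr c d`, and whose further letters are chosen by the list `L`.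

There is `A` such that for every nonempty set `V` of boundary points which is invariant under the
four chord maps and not dense in the boundary: the closure of `V` has a gap (complementary arc), and
for every gap, with end points `a, b`, and every letter `f_i` whose direction is not parallel to
`b - a`, both `a` and `b` are fixed by an alternating word of even positive length at most
`A / cross (u i) (b - a) ^ 2` with first applied letter `f_i`. -/
theorem result (K : Set Plane) (hK : IsCompact K) (hs : StrictConvex ℝ K)
    (hi : (interior K).Nonempty) (hsm : Smooth K) (u : Fin 4 → Plane) (hu : Cyc u) :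
    ∃ A : ℝ, ∀ V ⊆ frontier K, V.Nonempty →
      (∀ i, ∀ x ∈ V, ∀ t : ℝ, x + t • u i ∈ frontier K → x + t • u i ∈ V) →
      closure V ≠ frontier K →
      (∃ a b, IsGap V a b) ∧ ∀ a b, IsGap V a b → ∀ c d : Bool,
        cross (u (ltr c d)) (b - a) ≠ 0 →
        ∃ L : List Bool, Even (d :: L).length ∧
          ((d :: L).length : ℝ) * cross (u (ltr c d)) (b - a) ^ 2 ≤ A ∧
          walk K u c (d :: L) a = a ∧ walk K u c (d :: L) b = b :=
  loops_main K hK hs hi hsm u hu

end Pool.Agent.Results.MP_150b3d_gt.GapLoops
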